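import Pool.Agent.H9.SF.FDefs

/-! # Generic filters meet the sets which are dense below one of their elements -/

namespace SF.H89

open SF

/-- variables: 0 the element, then `c, r, D, p` -/
theorem dfbD : Dfb ZFm (fun M v =>
    (v 0 ∈ v 3 ∧ ZFSet.pair (v 0) (v 4) ∈ v 2) ∨
      ¬ ∃ q, M q ∧ (ZFSet.pair q (v 0) ∈ v 2 ∧ ZFSet.pair q (v 4) ∈ v 2)) := by
  refine Dfb.or (Dfb.and (Dfb.mem (Tm.var 0) (Tm.var 3))
    (Dfb.pairMem (Tm.var 0) (Tm.var 4) (Tm.var 2))) (Dfb.not ?_)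
  have h : Dfb ZFm (fun M v => ∃ q, M q ∧ (fun (_ : V → Prop) (w : ℕ → V) =>
      ZFSet.pair (w 0) (w 1) ∈ w 3 ∧ ZFSet.pair (w 0) (w 5) ∈ w 3) M (cons q v)) :=
    Dfb.ex (R := fun (_ : V → Prop) (w : ℕ → V) =>
      ZFSet.pair (w 0) (w 1) ∈ w 3 ∧ ZFSet.pair (w 0) (w 5) ∈ w 3)
      (Dfb.and (Dfb.pairMem (Tm.var 0) (Tm.var 1) (Tm.var 3))
        (Dfb.pairMem (Tm.var 0) (Tm.var 5) (Tm.var 3)))
  exact h

theorem fe : T_FE := by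
  intro M c r G D p hM hc hr hpo hG hD hp hden
  have hpc : p ∈ c := hG.1.sub hp
  have hpM : M p := hM.trans c hc p hpc
  have hmem : ∀ {x y : V}, ZFSet.pair x y ∈ r → x ∈ c ∧ y ∈ c := by
    intro x y h
    obtain ⟨a, ha, b, hb, e⟩ := hpo.sub _ h
    obtain ⟨rfl, rfl⟩ := ZFSet.pair_injective e
    exact ⟨ha, hb⟩
  have hv : In M (cons c (cons r (cons D (fun _ => p)))) :=
    In.cons (In.cons (In.cons (fun _ => hpM) hD) hr) hc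
  have hD1 : M (c.sep fun d => (d ∈ D ∧ ZFSet.pair d p ∈ r) ∨
      ¬ ∃ q, M q ∧ (ZFSet.pair q d ∈ r ∧ ZFSet.pair q p ∈ r)) :=
    (Tm.sep dfbD (Tm.var 0)).1 M hM _ hv
  obtain ⟨d, hdG, hd⟩ := hG.2 _ hD1 ⟨fun x hx => (ZFSet.mem_sep.1 hx).1, fun x hx => by
    by_cases h : ∃ q, M q ∧ (ZFSet.pair q x ∈ r ∧ ZFSet.pair q p ∈ r)
    · obtain ⟨q, -, hqx, hqp⟩ := h
      obtain ⟨d, hdD, hdq⟩ := hden q hqp
      exact ⟨d, ZFSet.mem_sep.2 ⟨(hmem hdq).1, Or.inl ⟨hdD, hpo.trans _ _ _ hdq hqp⟩⟩,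
        hpo.trans _ _ _ hdq hqx⟩
    · exact ⟨x, ZFSet.mem_sep.2 ⟨hx, Or.inr h⟩, hpo.refl x hx⟩⟩
  rcases (ZFSet.mem_sep.1 hd).2 with h | h
  · exact ⟨d, hdG, h.1, h.2⟩
  · exfalso
    obtain ⟨s, hs, hsd, hsp⟩ := hG.1.dir d hdG p hp
    exact h ⟨s, hM.trans c hc s (hG.1.sub hs), hsd, hsp⟩

end SF.H89
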