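import Pool.Agent.H77.SF.KT

/-! # The critical point of almost all small sets is inaccessible -/

open Ordinal Cardinal Order Set
open scoped ZFSet

namespace SF.H89

open SF

set_option linter.deprecated false in
/-- a cofinal map of length the cofinality -/
theorem cofmap (k : Ordinal.{0}) : ∃ h : Ordinal.{0} → Ordinal.{0},
    (∀ i < k.cof.ord, h i < k) ∧ ∀ a < k, ∃ i < k.cof.ord, a ≤ h i := by
  classical
  obtain ⟨f, hf⟩ := Ordinal.exists_blsub_cof k
  refine ⟨fun i => if hi : i < k.cof.ord then f i hi else 0, fun i hi => ?_, fun a ha => ?_⟩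
  · simp only [dif_pos hi]
    calc f i hi < Ordinal.blsub.{0, 0} _ f := Ordinal.lt_blsub f i hi
      _ = k := hf
  · rw [← hf, Ordinal.lt_blsub_iff] at ha
    obtain ⟨i, hi, h⟩ := ha
    refine ⟨i, hi, ?_⟩
    simp only [dif_pos hi]
    exact h

/-- normality for ordinal valued functions -/
theorem normOrd {κ : Cardinal.{0}} {N : V} {W : Ultrafilter V} (hW : PkU κ N W)
    (g : V → Ordinal.{0})
    (h : ∀ᶠ Y in (W : Filter V), g Y < κ.ord ∧ (g Y).toZFSet ∈ Y) :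
    ∃ τ < κ.ord, ∀ᶠ Y in (W : Filter V), g Y = τ := by
  obtain ⟨t, -, ht⟩ := hW.norm (fun Y => (g Y).toZFSet) (h.mono fun Y hY => hY.2)
  obtain ⟨Y0, hY0, hY0'⟩ := (h.and ht).exists
  refine ⟨g Y0, hY0.1, ht.mono fun Y hY => ?_⟩
  exact Ordinal.toZFSet_injective (hY.trans hY0'.symm)

/-- the bad case of a critical point with a short cofinal sequence -/
def Bad (κ : Cardinal.{0}) (Y : V) (k m : Ordinal.{0}) (h : Ordinal.{0} → Ordinal.{0}) : Prop :=
  (∀ α : Ordinal.{0}, α < k ↔ α < κ.ord ∧ α.toZFSet ∈ Y) ∧ m < k ∧ (∀ i < m, h i < k) ∧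
    ∀ a < k, ∃ i < m, a ≤ h i

theorem not_bad {κ : Cardinal.{0}} {N : V} {W : Ultrafilter V} (hκ : κ.IsInaccessible)
    (hW : PkU κ N W) (hN : ∀ α < κ.ord, α.toZFSet ∈ N) :
    ∀ᶠ Y in (W : Filter V), ¬ ∃ k m h, Bad κ Y k m h := by
  classical
  rw [Filter.eventually_iff]
  by_contra hcon
  have hbad : ∀ᶠ Y in (W : Filter V), ∃ k m h, Bad κ Y k m h := by
    have h1 := Ultrafilter.compl_mem_iff_notMem.2 hcon
    refine Filter.mem_of_superset h1 fun Y hY => ?_
    by_contra h2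
    exact hY h2
  let K : V → Ordinal.{0} := fun Y => if h : ∃ k m h, Bad κ Y k m h then h.choose else 0
  let M : V → Ordinal.{0} := fun Y =>
    if h : ∃ k m h, Bad κ Y k m h then h.choose_spec.choose else 0
  let H : V → Ordinal.{0} → Ordinal.{0} := fun Y =>
    if h : ∃ k m h, Bad κ Y k m h then h.choose_spec.choose_spec.choose else id
  have hKMH : ∀ᶠ Y in (W : Filter V), Bad κ Y (K Y) (M Y) (H Y) := by
    refine hbad.mono fun Y hY => ?_
    have e1 : K Y = hY.choose := dif_pos hY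
    have e2 : M Y = hY.choose_spec.choose := dif_pos hY
    have e3 : H Y = hY.choose_spec.choose_spec.choose := dif_pos hY
    rw [e1, e2, e3]
    exact hY.choose_spec.choose_spec.choose_spec
  obtain ⟨m, hm, hM⟩ := normOrd hW M (hKMH.mono fun Y hY => (hY.1 _).1 hY.2.1)
  have hH : ∀ i : m.ToType, ∃ τ < κ.ord, ∀ᶠ Y in (W : Filter V),
      H Y ((Ordinal.ToType.toOrd i : Set.Iio m) : Ordinal.{0}) = τ := by
    intro i
    refine normOrd hW (fun Y => H Y ((Ordinal.ToType.toOrd i : Set.Iio m) : Ordinal.{0})) ?_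
    filter_upwards [hKMH, hM] with Y hY hY2
    refine (hY.1 _).1 (hY.2.2.1 _ ?_)
    rw [hY2]
    exact (Ordinal.ToType.toOrd i).2
  choose τ hτ hτ' using hH
  have hcard : #m.ToType < κ := by
    rw [Cardinal.mk_toType]
    exact Cardinal.lt_ord.1 hm
  have hall := hW.comp m.ToType
    (fun i Y => H Y ((Ordinal.ToType.toOrd i : Set.Iio m) : Ordinal.{0}) = τ i) hcard hτ'
  have hd : ⨆ i, τ i + 1 < κ.ord := by
    refine Ordinal.iSup_add_one_lt_of_lt_cof ?_ hτ
    rw [hκ.isRegular.cof_ord]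
    exact hcard
  have hdN := hW.fine _ (hN _ hd)
  obtain ⟨Y, hY, hYM, hYH, hYd⟩ := (hKMH.and (hM.and (hall.and hdN))).exists
  obtain ⟨i, hi, hdi⟩ := hY.2.2.2 _ ((hY.1 _).2 ⟨hd, hYd⟩)
  rw [hYM] at hi
  have h1 := hYH (Ordinal.ToType.mk ⟨i, hi⟩)
  have h2 : ((Ordinal.ToType.toOrd (Ordinal.ToType.mk ⟨i, hi⟩) : Set.Iio m) : Ordinal.{0}) = i := by
    simp [Ordinal.ToType.toOrd]
  rw [h2] at h1
  rw [h1] at hdi
  have h3 : τ (Ordinal.ToType.mk ⟨i, hi⟩) < ⨆ i, τ i + 1 :=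
    Ordinal.lt_iSup_add_one τ _
  exact absurd hdi (not_le.2 h3)

theorem kk (hKD : T_KD) : T_KK := by
  intro κ N W hκ hW hN
  have ha : ∀ᶠ Y in (W : Filter V), (ω : Ordinal.{0}).toZFSet ∈ Y := by
    refine hW.fine _ (hN _ ?_)
    rw [Cardinal.lt_ord, Ordinal.card_omega0]
    exact hκ.aleph0_lt
  have hω : (ω : Ordinal.{0}) < κ.ord := by
    rw [Cardinal.lt_ord, Ordinal.card_omega0]
    exact hκ.aleph0_lt
  have hpow : ∀ α : Ordinal.{0}, α < κ.ord → (2 ^ α.card : Cardinal.{0}).ord < κ.ord := by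
    intro α hα
    rw [Cardinal.ord_lt_ord]
    exact hκ.isStrongPrelimit (Cardinal.lt_ord.1 hα)
  have hb : ∀ᶠ Y in (W : Filter V), ∀ α : Ordinal.{0}, α < κ.ord → α.toZFSet ∈ Y →
      ((2 ^ α.card : Cardinal.{0}).ord).toZFSet ∈ Y := by
    have h := hKD κ N W hκ.aleph0_lt hW (fun t Y => ∀ α : Ordinal.{0}, α < κ.ord →
      t 0 = α.toZFSet → ((2 ^ α.card : Cardinal.{0}).ord).toZFSet ∈ Y) ?_
    · refine h.mono fun Y hY α hα hαY => ?_
      exact hY (fun _ => α.toZFSet) (fun _ => hαY) α hα rfl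
    · intro t _
      by_cases ht : ∃ α : Ordinal.{0}, α < κ.ord ∧ t 0 = α.toZFSet
      · obtain ⟨α, hα, e⟩ := ht
        refine (hW.fine _ (hN _ (hpow α hα))).mono fun Y hY β hβ e' => ?_
        have : β = α := Ordinal.toZFSet_injective (e'.symm.trans e)
        rw [this]
        exact hY
      · exact Filter.Eventually.of_forall fun Y α hα e => absurd ⟨α, hα, e⟩ ht
  filter_upwards [ha, hb, not_bad hκ hW hN] with Y hY1 hY2 hY3 k hk
  have h1 : ω < k := (hk _).2 ⟨hω, hY1⟩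
  have h2 : ∀ α < k, (2 ^ α.card : Cardinal.{0}).ord < k := fun α hα =>
    (hk _).2 ⟨hpow α ((hk _).1 hα).1, hY2 α ((hk _).1 hα).1 ((hk _).1 hα).2⟩
  have h3 : k.card.ord = k := by
    refine le_antisymm (Cardinal.ord_card_le k) (not_lt.1 fun h => ?_)
    have h4 := h2 _ h
    rw [Cardinal.card_ord] at h4
    have h5 := Ordinal.card_le_card h4.le
    rw [Cardinal.card_ord] at h5
    exact absurd h5 (not_le.2 (Cardinal.cantor _))
  refine ⟨k.card, ⟨?_, ?_, ?_⟩, h3⟩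
  · rw [← h3, Cardinal.lt_ord, Ordinal.card_omega0] at h1
    exact h1
  · by_contra hcof
    rw [not_le, h3] at hcof
    obtain ⟨h, hh1, hh2⟩ := cofmap k
    refine hY3 ⟨k, k.cof.ord, h, hk, ?_, hh1, hh2⟩
    exact Cardinal.lt_ord.2 (by rw [Cardinal.card_ord]; exact hcof) |>.trans_le (le_of_eq h3)
  · intro x hx
    have h4 : x.ord < k := by rw [← h3, Cardinal.ord_lt_ord]; exact hx
    have h5 := h2 _ h4
    rw [← h3, Cardinal.ord_lt_ord, Cardinal.card_ord] at h5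
    exact h5

end SF.H89
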