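import Pool.Agent.H72.SF.VT

/-! # VE: components, properties of the small side -/

open Ordinal Cardinal Order Set
open scoped ZFSet

namespace SF.H89

open SF

/-- an assignment from five values -/
private noncomputable def a5 (a b c d e : V) : ℕ → V := cons a (cons b (cons c (cons d (fun _ => e))))

private theorem a5_mem {N a b c d e : V} (ha : a ∈ N) (hb : b ∈ N) (hc : c ∈ N) (hd : d ∈ N)
    (he : e ∈ N) : ∀ i, a5 a b c d e i ∈ N :=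
  In.cons (M := (· ∈ N)) (In.cons (M := (· ∈ N)) (In.cons (M := (· ∈ N)) (In.cons (M := (· ∈ N))
    (fun _ => he) hd) hc) hb) ha

private theorem a5_app (f a b c d e : V) :
    (fun i => app f (a5 a b c d e i)) = a5 (app f a) (app f b) (app f c) (app f d) (app f e) := by
  funext i
  rcases i with _ | _ | _ | _ | i <;> rfl

/-- the relation which expresses that the algebra consists of the regular open sets -/
private theorem dfbReg (hQH : T_QH) (hFS : T_FS) : Dfb ZFm (fun M v => ∀ O, M O →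
    (O ∈ v 0 ↔ RegO (qS (v 1) (v 2)) (qR (v 1) (v 2) (v 3)) O)) := by
  have h1 : Dfb ZFm (fun _ w => w 0 ∈ w 1 ↔ RegO (qS (w 2) (w 3)) (qR (w 2) (w 3) (w 4)) (w 0)) := by
    refine Dfb.iff (Dfb.mem (Tm.var 0) (Tm.var 1)) ?_
    refine Dfb.at3 (P := fun _ x y z => RegO x y z) hFS.1 ?_ ?_ (Tm.var 0)
    · exact Tm.at2 (F := fun _ x y => qS x y) hQH.1 (Tm.var 2) (Tm.var 3)
    · exact Tm.at3 (F := fun _ x y z => qR x y z) hQH.2.1 (Tm.var 2) (Tm.var 3) (Tm.var 4)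
  exact h1.all

private theorem dfbK (hQH : T_QH) : Dfb ZFm (fun _ v => v 0 = resS (v 1) fun b => kS (v 1) (v 2) b) := by
  refine Dfb.eq (Tm.var 0) ?_
  exact Tm.resS (f := fun _ v => v 1) (g := fun _ w => kS (w 2) (w 3) (w 0)) (Tm.var 1)
    (Tm.at3 (F := fun _ x y z => kS x y z) hQH.2.2.2.1 (Tm.var 2) (Tm.var 3) (Tm.var 0))

private theorem dfbKC (hQH : T_QH) : Dfb ZFm (fun _ v => ∀ b ∈ v 1, kS (v 1) (v 2) b ∈ v 0) := by
  have h1 : Dfb ZFm (fun _ w => kS (w 2) (w 3) (w 0) ∈ w 1) :=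
    Dfb.mem (Tm.at3 (F := fun _ x y z => kS x y z) hQH.2.2.2.1 (Tm.var 2) (Tm.var 3) (Tm.var 0))
      (Tm.var 1)
  exact Dfb.ball ktr_zfm (Tm.var 1) h1

theorem ve (hLED : T_LED) (hWF : T_WF) (hQH : T_QH) (hFS : T_FS) : T_VE := by
  intro S
  have z1 : ZFm (· ∈ S.N') := S.zN'.toZFm
  have z2 : ZFm (· ∈ S.N) := S.zN.toZFm
  have zM : ZFm (· ∈ S.M) := S.zfc.toZFCm.toZFm
  -- components in `N'`
  have t0 := S.mt
  unfold tupV at t0
  obtain ⟨mB', t1⟩ := z1.of_pair t0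
  obtain ⟨mmu', t2⟩ := z1.of_pair t1
  obtain ⟨mρ', t3⟩ := z1.of_pair t2
  obtain ⟨mC', t4⟩ := z1.of_pair t3
  obtain ⟨mk', t5⟩ := z1.of_pair t4
  obtain ⟨mcn', t6⟩ := z1.of_pair t5
  obtain ⟨mrn', t7⟩ := z1.of_pair t6
  obtain ⟨men', t8⟩ := z1.of_pair t7
  obtain ⟨mθ', mhn'⟩ := z1.of_pair t8
  -- values
  have e0 := S.tp
  unfold tupV at e0
  rw [S.el.app_pair z1 z2 mB' t1] at e0
  obtain ⟨eB, e1⟩ := ZFSet.pair_injective e0
  rw [S.el.app_pair z1 z2 mmu' t2] at e1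
  obtain ⟨emu, e2⟩ := ZFSet.pair_injective e1
  rw [S.el.app_pair z1 z2 mρ' t3] at e2
  obtain ⟨eρ, e3⟩ := ZFSet.pair_injective e2
  rw [S.el.app_pair z1 z2 mC' t4] at e3
  obtain ⟨eC, e4⟩ := ZFSet.pair_injective e3
  rw [S.el.app_pair z1 z2 mk' t5] at e4
  obtain ⟨ek, e5⟩ := ZFSet.pair_injective e4
  rw [S.el.app_pair z1 z2 mcn' t6] at e5
  obtain ⟨ecn, e6⟩ := ZFSet.pair_injective e5
  rw [S.el.app_pair z1 z2 mrn' t7] at e6
  obtain ⟨ern, e7⟩ := ZFSet.pair_injective e6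
  rw [S.el.app_pair z1 z2 men' t8] at e7
  obtain ⟨een, e8⟩ := ZFSet.pair_injective e7
  rw [S.el.app_pair z1 z2 mθ' mhn'] at e8
  obtain ⟨eθ, ehn⟩ := ZFSet.pair_injective e8
  have hval : ∀ {x y : V}, x ∈ S.N' → app S.f x = y → y ∈ S.N := fun hx h =>
    h ▸ app_mem S.el.func hx
  have hNM : ∀ x ∈ S.N, x ∈ S.M := fun x hx => zM.trans _ S.mN x hx
  have cN : CBAr (· ∈ S.N) S.B :=
    ⟨S.cba.bot, S.cba.inter, fun T hT hTB => S.cba.lub T (hNM T hT) hTB, S.cba.cpl⟩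
  -- transfer
  have tr : ∀ (R : (V → Prop) → (ℕ → V) → Prop), Dfb ZFm R → ∀ a b c d e : V, a ∈ S.N' →
      b ∈ S.N' → c ∈ S.N' → d ∈ S.N' → e ∈ S.N' →
      R (· ∈ S.N) (a5 (app S.f a) (app S.f b) (app S.f c) (app S.f d) (app S.f e)) →
      R (· ∈ S.N') (a5 a b c d e) := by
    intro R hR a b c d e ha hb hc hd he h
    refine (hLED ZFm R hR S.N' S.N S.f S.el z1 z2 _ (a5_mem ha hb hc hd he)).2 ?_
    rw [a5_app]
    exact h
  refine ⟨⟨mB', mmu', mρ', mC', mk', mcn', mrn', men', mθ', mhn'⟩,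
    ⟨eB, emu, eρ, eC, ek, ecn, ern, een, eθ, ehn⟩,
    ⟨hval mB' eB, hval mmu' emu, hval mρ' eρ, hval mC' eC, hval mk' ek, hval mcn' ecn,
      hval mrn' ern, hval men' een, hval mθ' eθ, hval mhn' ehn⟩, cN, ?_, ?_, ?_, ?_, ?_, ?_⟩
  · refine tr (fun M v => CBAr M (v 0)) hWF.2.1 S.B' S.B' S.B' S.B' S.B' mB' mB' mB' mB' mB' ?_
    rw [eB]
    exact cN
  · refine tr (fun _ v => v 0 ≠ {∅}) (Dfb.not (Dfb.eq (Tm.var 0) (Tm.sing Tm.empty)))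
      S.B' S.B' S.B' S.B' S.B' mB' mB' mB' mB' mB' ?_
    rw [eB]
    exact S.ne
  · refine tr (fun _ v => BPre (v 0) (v 1) (v 2)) hQH.2.2.1 S.B' S.mu' S.ρ' S.B' S.B' mB' mmu' mρ'
      mB' mB' ?_
    rw [eB, emu, eρ]
    exact S.pre
  · refine tr (fun M v => ∀ O, M O → (O ∈ v 0 ↔ RegO (qS (v 1) (v 2)) (qR (v 1) (v 2) (v 3)) O))
      (dfbReg hQH hFS) S.C' S.B' S.mu' S.ρ' S.B' mC' mB' mmu' mρ' mB' ?_
    rw [eB, emu, eρ, eC]
    exact fun O hO => S.hC O (hNM O hO)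
  · refine tr (fun _ v => v 0 = resS (v 1) fun b => kS (v 1) (v 2) b) (dfbK hQH) S.k' S.B' S.mu'
      S.B' S.B' mk' mB' mmu' mB' mB' ?_
    rw [ek, eB, emu]
    exact S.hk
  · refine tr (fun _ v => ∀ b ∈ v 1, kS (v 1) (v 2) b ∈ v 0) (dfbKC hQH) S.C' S.B' S.mu'
      S.B' S.B' mC' mB' mmu' mB' mB' ?_
    rw [eC, eB, emu]
    exact S.kC

end SF.H89
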