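import Pool.Agent.H72.SF.YT

/-! # Totally bad frames, set coded -/

open Ordinal Cardinal Order Set
open scoped ZFSet

namespace SF.H89

open SF

private theorem yh_app_gr {B C : V} [IsCBA B] [IsCBA C] (h : Mor B C) (x : El B) :
    app h.gr x.val = (h x).val := by
  refine app_eq ?_ ?_
  · intro a b c hb hc
    unfold Mor.gr at hb hc
    rw [ZFSet.mem_range] at hb hc
    obtain ⟨u, hu⟩ := hb
    obtain ⟨w, hw⟩ := hc
    obtain ⟨h1, h2⟩ := ZFSet.pair_injective hu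
    obtain ⟨h3, h4⟩ := ZFSet.pair_injective hw
    have h5 : u = w := El.ext (h1.trans h3.symm)
    rw [← h2, ← h4, h5]
  · unfold Mor.gr
    rw [ZFSet.mem_range]
    exact ⟨x, rfl⟩

private theorem yh_app_cS {N' N B : V} (σ : V → V → El B) {x y : V} (hx : x ∈ N') (hy : y ∈ N) :
    app (cS N' N σ) (ZFSet.pair x y) = (σ x y).val := by
  unfold cS
  rw [app_resS (ZFSet.pair_mem_prod.2 ⟨hx, hy⟩), fst_pair, snd_pair]

theorem yh (hYG : T_YG) (hYF : T_YF) (hG5 : T_G5) (hMB : T_MB) : T_YH := by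
  intro A C h b2 hbad p b0 hb0 hb0n
  obtain ⟨F, hF, q, hq, hFb⟩ := hYG A C h b2 hbad p b0 hb0 hb0n
  refine ⟨F.b, hF, F.N', trivial, F.N, trivial, cS F.N' F.N F.σ, trivial, F.w, trivial, F.B',
    trivial, F.C', trivial, F.h', trivial, F.p', trivial, F.G', trivial, q, trivial, ?_⟩
  refine ⟨(hYF A C h p).1 F, hq, ?_⟩
  intro b1 hb1 hb1n hb1F c _ σ1 _ hL
  have hne : (⟨b1, hb1⟩ : El A.B) ≠ ⊥ := by
    intro e
    have h1 := congrArg El.val e
    rw [El.bot_val] at h1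
    exact hb1n h1
  obtain ⟨F2, hF2, hF2b⟩ := (hG5 A C h p F q hq).1 ⟨b1, hb1⟩ (El.le_iff.2 hb1F) hne
  have hF2' := hF2
  obtain ⟨e1, e2, e3, e4, e5, e6, e7, e8, e9, e10⟩ := hF2
  have hval : F2.b.val = b1 := by rw [hF2b]
  have hq2 : q ∈ F2.N' := by rw [e1]; exact hq
  refine hFb F2 hF2' (((hYF A C h p).2.2.1 F2 q hq2).2 ⟨c, σ1, ?_⟩)
  refine ⟨?_, ?_, ?_, ?_, ?_⟩
  · rw [hval]; exact hL.le
  · rw [hval]; exact hL.proj
  · rw [e1, e2]; exact hL.map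
  · rw [e10, e2]; exact hL.com
  · rw [e2]
    intro z hz u hu
    refine hL.keep z hz ?_
    rw [ZFSet.mem_inter] at hu ⊢
    refine ⟨hu.1, ?_⟩
    have hz2 : z ∈ F2.N := by rw [e2]; exact hz
    rw [e1, yh_app_cS _ hq hz, yh_app_gr] at hu
    rw [yh_app_cS _ hq hz, yh_app_gr]
    have hle : F2.σ q z ≤ F.σ q z := by rw [e4]; exact inf_le_left
    exact El.le_iff.1 ((hMB A.B C.B h.toMor).1 _ _ hle) hu.2

end SF.H89
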